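import Pool.Agent.Run7.h947.IW.Ray
import Pool.Agent.Run7.h947.IW.Lay
import Pool.Agent.Results.MP_a4986b_nt.RankGrowthGap

/-!
# A criterion at one layer for the vanishing of the `μ`-invariant of totally real fields

`Qb` is an algebraic closure of `ℚ`, number fields are finite subextensions of `Qb / ℚ`, and `p` is an
odd prime. For a number field `F` let `s(F)` be the `p`-rank of the Galois group of the maximal abelian
`p`-extension of `F` which is unramified outside `p` and infinity: `DegLeI p (inertiaOutside p) F C` says that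
the abelian extensions of `F` of exponent `p` which are unramified outside `p` and infinity have degrees
at most `C`, that is `p ^ s(F) ≤ C`. For a totally real field `E` the invariant `μ_p(E)` vanishes if and only
if the `s(E R)` are bounded, for the layers `E R` of the cyclotomic `ℤ_p`-extension of `E` (`MuP p E`). (For
fields which are not totally real the `s(E R)` are not bounded; the theorem holds for them, but it is
not about `μ`.)

Let `K / k` be a finite Galois extension of totally real number fields, and let `𝓔` be a set of fields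
between `k` and `K` such that each simple `𝔽_p`-representation of `Gal(K/k)` of dimension less than `d` has a
nonzero vector fixed by `Gal(K/E)`, for some `E` in `𝓔`, `d ≥ 1`.

1. `μ_p(K) = 0` if and only if `μ_p(E) = 0` for all `E` in `𝓔` and `s(K R) < d [K R : K]` for one layer `R`.
   In other words: if `μ_p(E) = 0` for all `E` in `𝓔` and `μ_p(K) ≠ 0`, then `s(K R) ≥ d [K R : K]` for ALL
   layers `R`; in particular `s(K) ≥ d`.
2. If `K / k` is abelian, `𝓔` can be the set of the `E` between `k` and `K` which are cyclic over `k`, of a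
   degree `n` prime to `p` such that the order of `p` modulo `n` is less than `d`.
3. If `K / k` is abelian and the order of `p` modulo `n` is at least `d` for all divisors `n > 1` of `[K : k]`
   prime to `p`, then `μ_p(K) = 0` if and only if `μ_p(k) = 0` and `s(K R) < d [K R : K]` for one layer.

For example let `k` be a real abelian field, so that `μ_p(k) = 0` (Ferrero and Washington), let `K / k` be
cyclic of prime degree `l ≠ p` and totally real, and `f` the order of `p` modulo `l`. Then `μ_p(K) = 0` if and
only if `s(K_n) < f p ^ n` for one `n ≥ 0`, and if `μ_p(K) ≠ 0` then `s(K_n) ≥ f p ^ n` for all `n ≥ 0`.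

There are no conditions on the decomposition or ramification of `p`.

Proof. Let `V` be the module of a high layer `K S`, `T = γ - 1` and `q = [K R : K]`. The quotient `V / T ^ q V`
is a subgroup of the abelian group of an extension of `K R` with the same ramification, so its rank is at
most `s(K R)`. As the dimensions of `T ^ i V / T ^ (i + 1) V` decrease, the last one for `i < q` is less than
`d`. So all simple quotients of `T ^ (q - 1) V` have dimensions less than `d`, they are detected by `𝓔`, and
`T ^ (q - 1) V` is bounded; and `V / T ^ (q - 1) V` is bounded. The converse uses that the layers exist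
(`Run7.h947.IW.exists_layer`).
-/

set_option autoImplicit false

namespace Pool.Agent.Results.MP_4e64b4_nt.OneLayerCriterion

open IntermediateField Module Pool.Agent.Q60.MU Pool.Agent.W5h77.MB Pool.Agent.W5h33.DF Run7.h947.IW
open Pool.Agent.Results.MP_a4986b_nt.RankGrowthGap (IsFiniteGaloisOver IsAbelianOver SmallFields deg
  normal_of detects deg_eq)

/-- There is a bound for the degrees of the abelian extensions of exponent `p` of the layers of the
cyclotomic `ℤ_p`-extension of `E` which are unramified outside `p` and infinity. -/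
def MuP (p : ℕ) (E : IntermediateField ℚ Qb) : Prop := MuI p (inertiaOutside p) E

/-- `s(K R) < d [K R : K]` for a layer `R`. -/
def OneLayer (p d : ℕ) (K : IntermediateField ℚ Qb) : Prop :=
  ∃ (m : ℕ) (R : IntermediateField ℚ Qb) (C : ℕ), IsLayer p m R ∧
    DegLeI p (inertiaOutside p) (K ⊔ R) C ∧ C < p ^ (d * deg K (K ⊔ R))

/-- `μ_p = 0` for `K` if and only if `μ_p = 0` for the fields in `𝓔` and `s(K R) < d [K R : K]` for a
layer `R`. -/
def Criterion (p d : ℕ) (K : IntermediateField ℚ Qb) (𝓔 : Set (IntermediateField ℚ Qb)) : Prop :=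
  MuP p K ↔ (∀ E ∈ 𝓔, MuP p E) ∧ OneLayer p d K

variable {p : ℕ} [hp : Fact p.Prime] {k K : IntermediateField ℚ Qb}

theorem oneLayer_of (hp2 : p ≠ 2) [FiniteDimensional ℚ K] {d : ℕ} (hd : 0 < d) (h : MuP p K) :
    OneLayer p d K := by
  obtain ⟨C, hC⟩ := h
  obtain ⟨R, hR⟩ := exists_layer hp.out hp2 (finrank ℚ K * C)
  have hfR := layer_fd hp.out hR
  refine ⟨_, R, C, hR, hC _ R hR, ?_⟩
  have h1 : C ≤ deg K (K ⊔ R) := by
    rw [deg, Nat.le_div_iff_mul_le finrank_pos]
    have h2 : finrank ℚ R ≤ finrank ℚ ↥(K ⊔ R) :=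
      IntermediateField.finrank_le_of_le_right le_sup_right
    rw [hR.1] at h2
    have h3 : finrank ℚ K * C < p ^ (finrank ℚ K * C) := Nat.lt_pow_self hp.out.one_lt
    calc C * finrank ℚ K = finrank ℚ K * C := mul_comm _ _
      _ ≤ _ := h3.le.trans h2
  calc C < p ^ C := Nat.lt_pow_self hp.out.one_lt
    _ ≤ p ^ (d * deg K (K ⊔ R)) :=
        Nat.pow_le_pow_right hp.out.pos (h1.trans (Nat.le_mul_of_pos_left _ hd))

theorem outside_layer (m : ℕ) (S : IntermediateField ℚ Qb) (hS : IsLayer p m S)
    (A : ValuationSubring Qb) : inertiaOutside p A ≤ S.fixingSubgroup := by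
  unfold inertiaOutside
  by_cases h : (p : Qb) ∈ A.nonunits
  · rw [if_pos h]
    exact bot_le
  · rw [if_neg h]
    exact inertia_le_layer hp.out hS h

theorem criterion (hp2 : p ≠ 2) (hK : IsFiniteGaloisOver k K) {d : ℕ} (hd : 0 < d)
    (𝓔 : Set (IntermediateField ℚ Qb)) (h𝓔 : ∀ E ∈ 𝓔, k ≤ E ∧ E ≤ K) (hdet : DetectsOver p d k K 𝓔) :
    Criterion p d K 𝓔 := by
  have hfK := hK.2.1
  refine ⟨fun h => ⟨fun E hE => muI_down (h𝓔 E hE).2 h, oneLayer_of hp2 hd h⟩, ?_⟩
  rintro ⟨h1, m, R, C, hR, hC, hCE⟩
  exact (gapk_rank hp2 (outside_conj p) (outside_le p) outside_layer hK.1 (normal_of hK.2.2) 𝓔 h𝓔 hdet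
    hR hC hCE).2 h1

theorem result (p : ℕ) (hp2 : p ≠ 2) [Fact p.Prime] (k K : IntermediateField ℚ Qb)
    (hK : IsFiniteGaloisOver k K) (d : ℕ) (hd : 0 < d) :
    (∀ 𝓔 : Set (IntermediateField ℚ Qb), (∀ E ∈ 𝓔, k ≤ E ∧ E ≤ K) → DetectsOver p d k K 𝓔 →
      Criterion p d K 𝓔) ∧
    (IsAbelianOver k K → Criterion p d K (SmallFields p d k K) ∧
      ((∀ n, 1 < n → n ∣ deg k K → ¬ p ∣ n → d ≤ orderOf (p : ZMod n)) → Criterion p d K {k})) := by
  refine ⟨fun 𝓔 h𝓔 hdet => criterion hp2 hK hd 𝓔 h𝓔 hdet, fun hab => ?_⟩
  have h2 := criterion hp2 hK hd (SmallFields p d k K) (fun E hE => ⟨hE.2.1.1, hE.1⟩)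
    (detects hK hab d)
  refine ⟨h2, fun hord => ?_⟩
  have hfK := hK.2.1
  refine ⟨fun h3 => ⟨?_, (h2.1 h3).2⟩, fun h3 => h2.2 ⟨?_, h3.2⟩⟩
  · rintro E rfl
    exact muI_down hK.1 h3
  · rintro E ⟨hEK, hcyc, hpE, hsm⟩
    have hfk : FiniteDimensional ℚ k := fd_of_le hK.1
    have hfE : FiniteDimensional ℚ E := fd_of_le hEK
    have hdE := deg_eq hcyc.1
    have hdK := deg_eq hK.1
    have hdvd : deg k E ∣ deg k K := by
      rw [hdE, hdK, ← Subgroup.relIndex_mul_relIndex K.fixingSubgroup E.fixingSubgroup k.fixingSubgroup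
        (fixingSubgroup_le hEK) (fixingSubgroup_le hcyc.1)]
      exact Dvd.intro_left _ rfl
    have hd0 : deg k E ≠ 0 := by
      rw [hdE]
      intro h
      have h4 := Subgroup.relIndex_mul_index (fixingSubgroup_le hcyc.1)
      rw [h, zero_mul] at h4
      exact index_ne_zero' E h4.symm
    have h5 : deg k E = 1 := by
      by_contra hne
      exact absurd (hord _ (by omega) hdvd hpE) (not_le.2 hsm)
    rw [hdE, Subgroup.relIndex_eq_one] at h5
    have h6 : E = k := by
      apply le_antisymm _ hcyc.1
      have h7 : fixedField E.fixingSubgroup ≤ fixedField k.fixingSubgroup := fixedField_le h5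
      rwa [InfiniteGalois.fixedField_fixingSubgroup, InfiniteGalois.fixedField_fixingSubgroup] at h7
    exact h3.1 E h6

end Pool.Agent.Results.MP_4e64b4_nt.OneLayerCriterion
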