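import Pool.Agent.Run7.h947.IW.Ray

/-!
# The vanishing of `μ` for totally real fields: reduction to fields of degree prime to `p`

`Qb` is an algebraic closure of `ℚ`, number fields are finite subextensions of `Qb / ℚ`, and `p` is a
prime (odd in the question). For a totally real field `E` let `MuP p E` say that there is a bound for the
degrees of the abelian extensions of exponent `p`, unramified outside `p ∞`, of the layers `E R` of the
cyclotomic `ℤ_p`-extension of `E`. It is equivalent to the finiteness of `X_Σ / p`, `Σ = {v ∣ p ∞}`, so to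
`μ_p(E) = 0`.

* `μ_p = 0` for all totally real fields if and only if `μ_p = 0` for the totally real fields `M` for which
  `p` does not divide the degree `[M : ℚ]` and `Aut(M)` acts freely on the nonzero vectors of a nonzero
  `𝔽_p`-vector space. The fields `M` can be taken from the subfields of the Galois closure.
* Such a group `Aut(M)` has an order prime to `p` and contains at most one involution.
* Let `N / ℚ` be Galois and totally real and let `c` be an involution of `Gal(N / ℚ)`. Then `μ_p(N) = 0`
  if and only if `μ_p(N^c) = 0` and `μ_p(B) = 0` for the fixed field `B` of the commutators `[g, c]`, the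
  largest Galois subfield such that the image of `c` is in the center of `Gal(B / ℚ)`.

In the starting files (`DominatedFixedFields`, `TightFields`) only subgroups of `Aut` of an order prime to
`p` are used. Here the stabilizers of vectors and the subgroup generated by the commutators are arbitrary:
their orders may be divisible by `p`.
-/

set_option autoImplicit false

namespace Pool.Agent.Results.MP_4e64b4_nt.PrimeToPDegree

open IntermediateField Module Pool.Agent.Q60.MU Pool.Agent.W5h77.MB Run7.h947.IW
open Pool.Agent.X310.Mu (comms)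

/-- `N / ℚ` is a finite Galois extension, and `N` is totally real. -/
def IsRealGalois (N : IntermediateField ℚ Qb) : Prop :=
  FiniteDimensional ℚ N ∧ IsGalois ℚ N ∧ IsTotReal N

/-- There is a bound for the degrees of the abelian extensions of exponent `p` of the layers of the
cyclotomic `ℤ_p`-extension of `E` which are unramified outside `p` and infinity. -/
def MuP (p : ℕ) (E : IntermediateField ℚ Qb) : Prop := MuI p (inertiaOutside p) E

/-- The degree of `M` is prime to `p` and `Aut(M)` acts freely on the nonzero vectors of an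
`𝔽_p`-vector space. -/
def Special (p : ℕ) (M : IntermediateField ℚ Qb) : Prop := ¬ p ∣ finrank ℚ M ∧ FreeAut p M

/-- The order of `G` is prime to `p` and `G` has at most one involution. -/
def SmallGroup (p : ℕ) (G : Type) [Group G] : Prop :=
  ¬ p ∣ Nat.card G ∧ ∀ σ τ : G, σ ≠ 1 → τ ≠ 1 → σ * σ = 1 → τ * τ = 1 → σ = τ

/-- For `c` with `c² = 1` on `N`: `μ = 0` for `N` if and only if `μ = 0` for the field of the elements of
`N` fixed by `c` and for the field of the elements fixed by the commutators `g c g⁻¹ c⁻¹`. -/
def InvolutionCriterion (p : ℕ) (N : IntermediateField ℚ Qb) : Prop :=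
  ∀ c : Gal(Qb/ℚ), (∀ x ∈ N, c (c x) = x) →
    (MuP p N ↔ MuP p (N ⊓ fixedField (Subgroup.zpowers c)) ∧ MuP p (N ⊓ fixedField (comms c)))

theorem result (p : ℕ) (hp : p.Prime) :
    ((∀ E : IntermediateField ℚ Qb, FiniteDimensional ℚ E → IsTotReal E → MuP p E) ↔
      ∀ M : IntermediateField ℚ Qb, FiniteDimensional ℚ M → IsTotReal M → Special p M → MuP p M) ∧
    (∀ N, IsRealGalois N → (MuP p N ↔ ∀ M : IntermediateField ℚ Qb, M ≤ N → Special p M → MuP p M)) ∧
    (∀ M : IntermediateField ℚ Qb, FiniteDimensional ℚ M → Special p M → SmallGroup p (M ≃ₐ[ℚ] M)) ∧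
    (∀ N, IsRealGalois N → InvolutionCriterion p N) := by
  have hpf : Fact p.Prime := ⟨hp⟩
  have hloc : ∀ N, IsRealGalois N →
      (MuP p N ↔ ∀ M : IntermediateField ℚ Qb, M ≤ N → Special p M → MuP p M) := by
    rintro N ⟨hNf, hNg, hNr⟩
    refine ⟨fun h M hM _ => downI hp N M hM h, fun h => ?_⟩
    refine reduceN hp (outside_conj p) (outside_le p) N ?_
    intro S _ _ _ τ hτ hs
    have hnt := hs.1
    obtain ⟨v, hv, h1, h2, h3⟩ := vec_prime τ hτ
    exact ⟨v, hv, h _ h1 ⟨h3, h2⟩⟩
  refine ⟨⟨fun h M hM hR _ => h M hM hR, fun h E hE hR => ?_⟩, hloc, ?_, ?_⟩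
  · obtain ⟨N, hEN, hNf, hNg, hNr⟩ := real_closure E hE hR
    refine downI hp N E hEN ((hloc N ⟨hNf, hNg, hNr⟩).2 fun M hM h1 => h M ?_ (totReal_of_le hM hNr) h1)
    exact Submodule.finiteDimensional_of_le (S₁ := Subalgebra.toSubmodule M.toSubalgebra)
      (S₂ := Subalgebra.toSubmodule N.toSubalgebra) hM
  · intro M hM hMs
    exact ⟨free_card hp hMs.2, fun σ τ h1 h2 h3 h4 => free_involution hMs.2 h1 h2 h3 h4⟩
  · rintro N ⟨hNf, hNg, hNr⟩ c hc
    exact mu_involution hp (outside_conj p) (outside_le p) N c hc

end Pool.Agent.Results.MP_4e64b4_nt.PrimeToPDegree
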