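import Pool.Agent.Run7.h759.UD.Bridge

/-!
# The `μ`-invariant of totally real fields and everywhere unramified extensions of prime degree

`Qb` is an algebraic closure of `ℚ`, and number fields are finite subextensions of `Qb / ℚ`. For a
totally real field `E` and an odd prime `p`, `MuNull p (InertOutside p) E` says that the degrees of the elementary
abelian `p`-extensions of the layers `E R` of the cyclotomic `ℤ_p`-extension of `E` which are unramified outside `p`
and infinity are bounded, that is, `μ_p(E) = 0`.

`μ_p(E) = 0` for all totally real fields `E` is equivalent to its relative form for the extensions `N / M` of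
prime degree `ℓ ≠ p` which are Galois and unramified at all places, where `N` is totally real and Galois over `ℚ` and all
primes which ramify in `N / ℚ`, and all primes above a given number `m` (for example above `p`), split completely in
`N / M`. For each such extension it is enough that the relative part of one layer `N R` has order less than
`p ^ (f q)`, where `q = [N R : N]` and `f` is the order of `p` modulo `ℓ`. The same holds inside classes of totally real fields.
-/

set_option autoImplicit false

namespace Pool.Agent.Results.MP_4e64b4_nt.UnramifiedSteps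

open Pool.Agent.Run7.h759.UD
open Run7.h947.IW (inertiaOutside outside_conj)

theorem result (p : ℕ) [Fact p.Prime] (hp2 : p ≠ 2) (m : ℕ) (hm : m ≠ 0) :
    (∀ k : Fld, IsNF k → GalOver ⊥ k → TotallyReal k → MuNull p (InertOutside p) k →
      ((∀ E : Fld, IsNF E → TotallyReal E → MuNull p (InertOutside p) E) ↔
        ∀ ℓ M N, IsStep p m ⊥ k TotallyReal ℓ M N → RelMuNull p (InertOutside p) M N) ∧
      ((∀ E : Fld, IsNF E → TotallyReal E → MuNull p (InertOutside p) E) ↔
        ∀ ℓ M N, IsStep p m ⊥ k TotallyReal ℓ M N → OneSmall0 p (InertOutside p) ℓ M N)) ∧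
    ∀ (a k : Fld) (Q : Fld → Prop), IsClass p a k Q →
      (MuNullOn p (InertOutside p) a k Q ↔ MuNull p (InertOutside p) k ∧
        ∀ ℓ M N, IsStep p m a k Q ℓ M N → RelMuNull p (InertOutside p) M N) ∧
      (MuNullOn p (InertOutside p) a k Q ↔ MuNull p (InertOutside p) k ∧
        ∀ ℓ M N, IsStep p m a k Q ℓ M N → OneSmall0 p (InertOutside p) ℓ M N) := by
  have key := fun (a k : Fld) (Q : Fld → Prop) (h : IsClass p a k Q) =>
    And.intro
      (class_rel p hp2 (describes_outside p) (outside_conj p) (outside_le2 p) hm h)
      (class_one0 p hp2 (describes_outside p) (outside_conj p) (outside_le2 p) hm h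
        (outside_le4 (Fact.out : p.Prime)))
  refine ⟨fun k hk hkg hkr hmk => ?_, key⟩
  have hall := all_real_iff p (describes_outside p) hk hkr
  obtain ⟨h1, h2⟩ := key ⊥ k TotallyReal ⟨bot_le, hk, hkg, hkr, closed_real p⟩
  exact ⟨hall.trans (h1.trans ⟨fun h => h.2, fun h => ⟨hmk, h⟩⟩),
    hall.trans (h2.trans ⟨fun h => h.2, fun h => ⟨hmk, h⟩⟩)⟩

end Pool.Agent.Results.MP_4e64b4_nt.UnramifiedSteps
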